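import Mathlib
import Pool.Agent.R894.LiouU

/-!
# Nonradial negative solutions of `Δu + p(|x|) q(e^u) = 4 π N δ` in the plane

For every real `N ≥ 0` there are `p, q` such that `f t = e^{2t} p(e^t)`, `g u = q(e^u)` satisfy
(H1)-(H8) and the equation has a negative solution on the plane which is not radially symmetric
about any point.  If `N` is a positive integer then `p` can be taken constant.

The solutions are explicit.  With `m = max 1 ⌈N⌉`, `p r = 32 (m+1)^2 r^{2(m-N)}`, and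
`q s = s` for `s ≤ 1/2`, `q s = (4s-1)(1-s)` for `1/2 ≤ s ≤ 1`, `q s = 3(1/s-1)` for `s ≥ 1`, take
`u = 2 N log|z| - log 4 - 2 log (1 + |z^{m+1} + 1|^2)`; then `e^u ≤ 1/2`.

The definitions `fOf`, `gOf`, `tail`, `M₀`, `G₀`, `Hypotheses` are in `Pool.Agent.R894.LiouF`.
-/

set_option autoImplicit false

namespace Pool.Agent.Results.MP_ad2fa1_an.NonradialSolutions

open MeasureTheory Filter Topology Set
open scoped Laplacian
open Pool.Agent.R894.Liou

/-- The Euclidean plane. -/
abbrev Plane : Type := EuclideanSpace ℝ (Fin 2)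

/-- `u` solves `Δu + p(|x|) q(e^u) = 4 π N δ` on the plane in the sense of distributions. -/
structure IsSolution (N : ℝ) (p q : ℝ → ℝ) (u : Plane → ℝ) : Prop where
  locallyIntegrable : LocallyIntegrable u
  /-- `u` is smooth off the origin -/
  smooth : ContDiffOn ℝ ((⊤ : ℕ∞) : WithTop ℕ∞) u {0}ᶜ
  rhs_locallyIntegrable : LocallyIntegrable (fun x => p ‖x‖ * q (Real.exp (u x)))
  distributional : ∀ φ : Plane → ℝ, ContDiff ℝ ((⊤ : ℕ∞) : WithTop ℕ∞) φ → HasCompactSupport φ →
    (∫ x, u x * Δ φ x) + ∫ x, p ‖x‖ * q (Real.exp (u x)) * φ x = 4 * Real.pi * N * φ 0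

/-- `u` is radially symmetric about `x₀` (off the origin, where `u` may be singular): the value
`u x` depends only on `‖x - x₀‖`. -/
def RadialAbout (x₀ : Plane) (u : Plane → ℝ) : Prop :=
  ∀ x y : Plane, x ≠ 0 → y ≠ 0 → ‖x - x₀‖ = ‖y - x₀‖ → u x = u y

open Pool.Agent.H314.Dir Pool.Agent.H314.CS

/-- the point of the plane with complex coordinate `z` -/
noncomputable def pz (z : ℂ) : Plane := !₂[z.re, z.im]

lemma cz_pz (z : ℂ) : cz (pz z) = z := by
  apply Complex.ext <;> simp [cz, pz]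

lemma pz_cz (x : Plane) : pz (cz x) = x := by
  ext i
  fin_cases i <;> simp [cz, pz]

lemma norm_pz (z : ℂ) : ‖pz z‖ = ‖z‖ := by
  have h1 : ‖pz z‖ ^ 2 = ‖z‖ ^ 2 := by
    rw [← normSq_cz, cz_pz, Complex.normSq_eq_norm_sq]
  exact (sq_eq_sq₀ (norm_nonneg _) (norm_nonneg _)).mp h1

lemma pz_sub (z w : ℂ) : pz z - pz w = pz (z - w) := by
  ext i
  fin_cases i <;> simp [pz]

lemma pz_ne {z : ℂ} (h : z ≠ 0) : pz z ≠ 0 := by
  rw [← norm_ne_zero_iff, norm_pz]
  exact norm_ne_zero_iff.mpr h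

lemma uu_pz (N : ℝ) (m : ℕ) (z : ℂ) : uu N m (pz z) =
    2 * N * Real.log ‖z‖ + (-Real.log 4 - 2 * Real.log (1 + Complex.normSq (hol m z))) := by
  unfold uu WW
  rw [norm_pz, cz_pz]

/-- a root of `z^(m+1) = -1` -/
noncomputable def rt (m : ℕ) : ℂ := Complex.exp (((Real.pi / (m + 1) : ℝ) : ℂ) * Complex.I)

lemma rt_pow (m : ℕ) : rt m ^ (m + 1) = -1 := by
  unfold rt
  rw [← Complex.exp_nat_mul]
  have : (((m + 1 : ℕ) : ℂ) * (((Real.pi / (m + 1) : ℝ) : ℂ) * Complex.I)) = Real.pi * Complex.I := by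
    push_cast
    have h : (m : ℂ) + 1 ≠ 0 := by exact_mod_cast Nat.succ_ne_zero m
    field_simp
  rw [this, Complex.exp_pi_mul_I]

lemma norm_rt (m : ℕ) : ‖rt m‖ = 1 := by
  unfold rt
  exact Complex.norm_exp_ofReal_mul_I _

lemma norm_of_pow {m : ℕ} {z : ℂ} (h : z ^ (m + 1) = -1) : ‖z‖ = 1 := by
  have h1 : ‖z‖ ^ (m + 1) = 1 := by rw [← norm_pow, h]; simp
  exact (pow_eq_one_iff_of_nonneg (norm_nonneg z) (Nat.succ_ne_zero m)).mp h1

/-- There is no symmetry about the origin. -/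
lemma not_radial_zero (N : ℝ) (m : ℕ) : ¬ RadialAbout 0 (uu N m) := by
  intro h
  have hr : rt m ≠ 0 := by
    rw [← norm_ne_zero_iff, norm_rt]; exact one_ne_zero
  have h1 := h (pz 1) (pz (rt m)) (pz_ne one_ne_zero) (pz_ne hr)
    (by rw [sub_zero, sub_zero, norm_pz, norm_pz, norm_rt, norm_one])
  rw [uu_pz, uu_pz, norm_rt, norm_one] at h1
  have h2 : hol m 1 = 2 := by unfold hol; norm_num
  have h3 : hol m (rt m) = 0 := by unfold hol; rw [rt_pow]; ring
  have h4 : Complex.normSq 2 = 4 := by norm_num [Complex.normSq_apply]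
  rw [h2, h3, h4] at h1
  simp only [Real.log_one, map_zero] at h1
  have h5 : 0 < Real.log (1 + 4) := Real.log_pos (by norm_num)
  norm_num at h1

/-- No symmetry about any point, if there is a singularity at the origin. -/
lemma not_radial_pos {N : ℝ} (hN : 0 < N) (m : ℕ) (x₀ : Plane) : ¬ RadialAbout x₀ (uu N m) := by
  by_cases hx : x₀ = 0
  · subst hx; exact not_radial_zero N m
  intro h
  have hR : 0 < ‖x₀‖ := norm_pos_iff.mpr hx
  have hc : ContinuousAt (uu N m) ((2 - (0 : ℝ)) • x₀) := by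
    have h1 : (2 - (0 : ℝ)) • x₀ ∈ ({0}ᶜ : Set Plane) := by
      simp [hx]
    exact ((smooth_u N m).continuousOn _ h1).continuousAt (isOpen_compl_singleton.mem_nhds h1)
  have h1 : Tendsto (fun t : ℝ => uu N m ((2 - t) • x₀)) (𝓝[>] 0)
      (𝓝 (uu N m ((2 - (0 : ℝ)) • x₀))) := by
    have h2 : Continuous fun t : ℝ => (2 - t) • x₀ := by fun_prop
    have h3 : Tendsto (fun t : ℝ => (2 - t) • x₀) (𝓝 0) (𝓝 ((2 - (0 : ℝ)) • x₀)) := h2.tendsto 0
    exact (hc.tendsto.comp h3).mono_left nhdsWithin_le_nhds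
  have h2 : Tendsto (fun t : ℝ => 2 * N * Real.log (t * ‖x₀‖)) (𝓝[>] 0) atBot := by
    refine Tendsto.const_mul_atBot (by linarith) ?_
    refine Real.tendsto_log_nhdsGT_zero.comp ?_
    rw [tendsto_nhdsWithin_iff]
    constructor
    · have h3 : Continuous fun t : ℝ => t * ‖x₀‖ := by fun_prop
      have := h3.tendsto 0
      rw [zero_mul] at this
      exact this.mono_left nhdsWithin_le_nhds
    · filter_upwards [self_mem_nhdsWithin] with t ht
      exact mul_pos ht hR
  have h3 : Tendsto (fun t : ℝ => uu N m ((2 - t) • x₀)) (𝓝[>] 0) atBot := by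
    refine tendsto_atBot_mono' _ ?_ h2
    have : ∀ᶠ t : ℝ in 𝓝[>] 0, t < 1 :=
      (eventually_lt_nhds (by norm_num)).filter_mono nhdsWithin_le_nhds
    filter_upwards [self_mem_nhdsWithin, this] with t ht ht1
    have ht0 : 0 < t := ht
    have e1 : t • x₀ ≠ 0 := smul_ne_zero ht0.ne' hx
    have e2 : (2 - t) • x₀ ≠ 0 := smul_ne_zero (by linarith) hx
    have e3 : ‖t • x₀ - x₀‖ = ‖(2 - t) • x₀ - x₀‖ := by
      have a1 : t • x₀ - x₀ = -((1 - t) • x₀) := by module
      have a2 : (2 - t) • x₀ - x₀ = (1 - t) • x₀ := by module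
      rw [a1, a2, norm_neg]
    rw [← h _ _ e1 e2 e3]
    unfold uu WW
    rw [norm_smul, Real.norm_eq_abs, abs_of_pos ht0]
    have a1 : 0 < Real.log 4 := Real.log_pos (by norm_num)
    have a2 : 0 ≤ Real.log (1 + Complex.normSq (hol m (cz (t • x₀)))) := by
      refine Real.log_nonneg ?_
      have := Complex.normSq_nonneg (hol m (cz (t • x₀)))
      linarith
    linarith
  exact not_tendsto_nhds_of_tendsto_atBot h3 _ h1

/-- Four points of a circle, which are on the unit circle or zero. -/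
lemma circle_aux {a b p q : ℝ} (e1 : (a + p) ^ 2 + (b + q) ^ 2 = 1) (hne : 0 < p ^ 2 + q ^ 2)
    (e2 : (a - p) ^ 2 + (b - q) ^ 2 = 1 ∨ (a - p = 0 ∧ b - q = 0))
    (e3 : (a - q) ^ 2 + (b + p) ^ 2 = 1 ∨ (a - q = 0 ∧ b + p = 0))
    (e4 : (a + q) ^ 2 + (b - p) ^ 2 = 1 ∨ (a + q = 0 ∧ b - p = 0)) : a = 0 ∧ b = 0 := by
  rcases e2 with e2 | ⟨e2, e2'⟩
  · rcases e3 with e3 | ⟨e3, e3'⟩
    · have g1 : a * p + b * q = 0 := by linear_combination (e1 - e2) / 4
      have g2 : a * q - b * p = 0 := by linear_combination (e1 - e3) / 2 - (e1 - e2) / 4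
      have g3 : (a ^ 2 + b ^ 2) * (p ^ 2 + q ^ 2) = 0 := by
        have : (a ^ 2 + b ^ 2) * (p ^ 2 + q ^ 2) = (a * p + b * q) ^ 2 + (a * q - b * p) ^ 2 := by
          ring
        rw [this, g1, g2]; ring
      rcases mul_eq_zero.mp g3 with g4 | g4
      · constructor <;> nlinarith [sq_nonneg a, sq_nonneg b]
      · linarith
    · have ha : a = q := by linarith
      have hb : b = -p := by linarith
      subst ha hb
      exfalso
      rcases e4 with e4 | ⟨e4, e4'⟩
      · nlinarith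
      · have h1 : a = 0 := by linarith
        have h2 : p = 0 := by linarith
        rw [h1, h2] at hne
        norm_num at hne
  · have ha : a = p := by linarith
    have hb : b = q := by linarith
    subst ha hb
    exfalso
    rcases e3 with e3 | ⟨e3, e3'⟩
    · nlinarith
    · have h1 : a = 0 := by linarith
      have h2 : b = 0 := by linarith
      rw [h1, h2] at hne
      norm_num at hne

/-- No symmetry about any point, if there is no singularity and `m ≥ 1`. -/
lemma not_radial_N0 {m : ℕ} (hm : 1 ≤ m) (x₀ : Plane) : ¬ RadialAbout x₀ (uu 0 m) := by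
  intro h
  set c : ℂ := cz x₀ with hc
  have hx0 : x₀ = pz c := (pz_cz x₀).symm
  -- a root different from the centre
  obtain ⟨ξ, hξ, hξc⟩ : ∃ ξ : ℂ, ξ ^ (m + 1) = -1 ∧ ξ ≠ c := by
    by_cases h1 : rt m = c
    · refine ⟨(starRingEnd ℂ) (rt m), ?_, ?_⟩
      · rw [← map_pow, rt_pow]; simp
      · rw [← h1]
        intro h2
        have h3 : (rt m).im = 0 := Complex.conj_eq_iff_im.mp h2
        unfold rt at h3
        rw [Complex.exp_ofReal_mul_I_im] at h3
        have h4 : 0 < Real.sin (Real.pi / (m + 1)) := by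
          have hm' : (1 : ℝ) ≤ m := by exact_mod_cast hm
          refine Real.sin_pos_of_pos_of_lt_pi (by positivity) ?_
          rw [div_lt_iff₀ (by positivity)]
          nlinarith [Real.pi_pos]
        linarith
    · exact ⟨rt m, rt_pow m, h1⟩
  have key : ∀ y : ℂ, y ≠ 0 → ‖y - c‖ = ‖ξ - c‖ → ‖y‖ = 1 := by
    intro y hy hyc
    have hξ0 : ξ ≠ 0 := by
      rw [← norm_ne_zero_iff, norm_of_pow hξ]; exact one_ne_zero
    have h1 := h (pz y) (pz ξ) (pz_ne hy) (pz_ne hξ0)
      (by rw [hx0, pz_sub, pz_sub, norm_pz, norm_pz, hyc])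
    rw [uu_pz, uu_pz] at h1
    have h3 : hol m ξ = 0 := by unfold hol; rw [hξ]; ring
    rw [h3] at h1
    simp only [map_zero, add_zero, Real.log_one, mul_zero, zero_mul, zero_add, sub_zero] at h1
    have h4 : Real.log (1 + Complex.normSq (hol m y)) = 0 := by linarith
    have h5 := Complex.normSq_nonneg (hol m y)
    have h6 : Complex.normSq (hol m y) = 0 := by
      by_contra hne
      have : 0 < Complex.normSq (hol m y) := lt_of_le_of_ne h5 (Ne.symm hne)
      have := Real.log_pos (show 1 < 1 + Complex.normSq (hol m y) by linarith)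
      linarith
    have h7 : hol m y = 0 := Complex.normSq_eq_zero.mp h6
    exact norm_of_pow (eq_neg_of_add_eq_zero_left h7)
  -- four points of the circle
  have hsq : ∀ y : ℂ, ‖y‖ = 1 → y.re ^ 2 + y.im ^ 2 = 1 := by
    intro y hy
    have := Complex.normSq_eq_norm_sq y
    rw [hy, Complex.normSq_apply] at this
    linarith
  have key2 : ∀ y : ℂ, ‖y - c‖ = ‖ξ - c‖ → y.re ^ 2 + y.im ^ 2 = 1 ∨ (y.re = 0 ∧ y.im = 0) := by
    intro y hy
    by_cases h0 : y = 0
    · right; rw [h0]; simp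
    · left; exact hsq y (key y h0 hy)
  have e1 := hsq ξ (norm_of_pow hξ)
  have e2 := key2 (c - (ξ - c)) (by rw [← norm_neg]; congr 1; ring)
  have e3 := key2 (c + Complex.I * (ξ - c)) (by
    rw [add_sub_cancel_left, norm_mul, Complex.norm_I, one_mul])
  have e4 := key2 (c - Complex.I * (ξ - c)) (by
    rw [sub_sub_cancel_left, norm_neg, norm_mul, Complex.norm_I, one_mul])
  have hne : 0 < (ξ.re - c.re) ^ 2 + (ξ.im - c.im) ^ 2 := by
    rcases eq_or_ne ξ.re c.re with h1 | h1
    · have h2 : ξ.im ≠ c.im := fun h2 => hξc (Complex.ext h1 h2)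
      have := sub_ne_zero.mpr h2
      positivity
    · have := sub_ne_zero.mpr h1
      positivity
  simp only [Complex.sub_re, Complex.sub_im, Complex.add_re, Complex.add_im, Complex.mul_re,
    Complex.mul_im, Complex.I_re, Complex.I_im, zero_mul, one_mul, zero_sub, zero_add] at e2 e3 e4
  have hcz : c.re = 0 ∧ c.im = 0 := by
    refine circle_aux (p := ξ.re - c.re) (q := ξ.im - c.im) ?_ hne e2 ?_ ?_
    · rw [← e1]; ring
    · exact e3
    · simpa only [sub_neg_eq_add] using e4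
  have hc0 : c = 0 := Complex.ext hcz.1 hcz.2
  have hx00 : x₀ = 0 := by
    rw [hx0, hc0]
    ext i
    fin_cases i <;> simp [pz]
  rw [hx00] at h
  exact not_radial_zero 0 m h

/-- **Nonradial negative solutions.** For every real `N ≥ 0` there are `p`, `q` such that
`f t = e^{2t} p(e^t)`, `g u = q(e^u)` satisfy (H1)-(H8) and `Δu + p(|x|) q(e^u) = 4 π N δ` has a
solution on the plane which is negative off the origin, and which is not radially symmetric about
the origin or about any other point. If `N` is a positive integer, `p` can be taken constant. -/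
theorem result : ∀ N : ℝ, 0 ≤ N → ∃ (p q : ℝ → ℝ) (u : Plane → ℝ),
    Hypotheses (fOf p) (gOf q) ∧
    IsSolution N p q u ∧
    (∀ x, x ≠ 0 → u x < 0) ∧
    (∀ x₀, ¬ RadialAbout x₀ u) ∧
    ((∃ n : ℕ, 1 ≤ n ∧ N = n) → ∃ c : ℝ, 0 < c ∧ ∀ r, p r = c) := by
  intro N hN
  obtain ⟨m, hm1, hNm, hmN⟩ : ∃ m : ℕ, 1 ≤ m ∧ N ≤ m ∧ ((∃ n : ℕ, 1 ≤ n ∧ N = n) → N = m) := by
    by_cases h : ∃ n : ℕ, 1 ≤ n ∧ N = n
    · obtain ⟨n, hn, hNn⟩ := h
      exact ⟨n, hn, hNn.le, fun _ => hNn⟩
    · refine ⟨max 1 ⌈N⌉₊, le_max_left _ _, ?_, fun h' => absurd h' h⟩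
      refine le_trans (Nat.le_ceil N) ?_
      exact_mod_cast le_max_right _ _
  refine ⟨pp N m, qq, uu N m, ?_, ⟨locInt_u N m, smooth_u N m, locInt_rhs hN hNm,
    fun φ hφ hc => distr hN hNm ?_ hc⟩, ?_, ?_, ?_⟩
  · have h1 : fOf (pp N m) = fe (32 * ((m : ℝ) + 1) ^ 2) (2 + 2 * ((m : ℝ) - N)) := by
      have : pp N m = fun r => 32 * ((m : ℝ) + 1) ^ 2 * r ^ (2 * ((m : ℝ) - N)) := rfl
      rw [this, fOf_eq]
    have h2 : gOf qq = gg := rfl
    rw [h1, h2]
    exact hypotheses (by positivity) (by linarith)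
  · exact_mod_cast contDiff_infty.1 hφ 2
  · intro x hx
    have h1 := uu_le hN hNm hx
    have h2 : 0 < Real.log 2 := Real.log_pos (by norm_num)
    linarith
  · intro x₀
    rcases eq_or_lt_of_le hN with h0 | h0
    · rw [← h0]
      exact not_radial_N0 hm1 x₀
    · exact not_radial_pos h0 m x₀
  · intro h
    refine ⟨32 * ((m : ℝ) + 1) ^ 2, by positivity, fun r => ?_⟩
    unfold pp
    rw [hmN h, sub_self, mul_zero, Real.rpow_zero, mul_one]

end Pool.Agent.Results.MP_ad2fa1_an.NonradialSolutions
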